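import Pool.Agent.helper38.OV.Spec

/-! # Row ov:AR3 (MP_bf63dc_nt) -/

set_option autoImplicit false

namespace Pool.Agent.OV

open Finset Real Pool.Agent.AT Pool.Agent.helper85.FC Pool.Agent.OM

theorem AR3 : AR3_stmt := by
  intro a₁ b₁ a₂ b₂ M ha hb h hd α β ρ hρ h1 h2
  obtain ⟨n₁, h1⟩ := h1
  obtain ⟨n₂, h2⟩ := h2
  obtain ⟨D', hD'⟩ := hd
  refine ⟨D' * (b₂ * n₁ - b₁ * n₂), ?_⟩
  have ha0 : (1 : ℝ) ≤ a₁ := by exact_mod_cast ha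
  have hb0 : (1 : ℝ) ≤ b₂ := by exact_mod_cast hb
  have hb1 : (0 : ℝ) ≤ b₁ := Nat.cast_nonneg b₁
  have hM0 : (0 : ℝ) ≤ M := Nat.cast_nonneg M
  have hM : (M : ℝ) = ((a₁ : ℝ) * b₂ - a₂ * b₁) * D' := by exact_mod_cast hD'
  have h' : 2 * ((a₂ : ℝ) * b₁) ≤ a₁ * b₂ := by exact_mod_cast h
  have hp : 0 < (a₁ : ℝ) * b₂ := by positivity
  have e1 : (M : ℝ) * α - ((D' * (b₂ * n₁ - b₁ * n₂) : ℤ) : ℝ) =
      D' * (b₂ * (a₁ * α + b₁ * β - n₁) - b₁ * (a₂ * α + b₂ * β - n₂)) := by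
    rw [hM]
    push_cast
    ring
  rw [e1, abs_mul]
  have h3 : |(b₂ : ℝ) * (a₁ * α + b₁ * β - n₁) - b₁ * (a₂ * α + b₂ * β - n₂)| ≤ 2 * ρ * b₁ * b₂ := by
    refine (abs_sub _ _).trans ?_
    rw [abs_mul, abs_mul, abs_of_nonneg (by linarith : (0 : ℝ) ≤ b₂), abs_of_nonneg hb1]
    have h5 : (b₂ : ℝ) * |a₁ * α + b₁ * β - n₁| ≤ b₂ * (ρ * b₁) := mul_le_mul_of_nonneg_left h1 (by linarith)
    have h6 : (b₁ : ℝ) * |a₂ * α + b₂ * β - n₂| ≤ b₁ * (ρ * b₂) := mul_le_mul_of_nonneg_left h2 hb1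
    linarith
  have h4 : |(D' : ℝ)| * (a₁ * b₂) ≤ 2 * M := by
    have h7 : (M : ℝ) = ((a₁ : ℝ) * b₂ - a₂ * b₁) * |(D' : ℝ)| := by
      have h8 : |(M : ℝ)| = |((a₁ : ℝ) * b₂ - a₂ * b₁) * D'| := by rw [hM]
      rw [abs_of_nonneg hM0, abs_mul, abs_of_pos (by linarith : 0 < (a₁ : ℝ) * b₂ - a₂ * b₁)] at h8
      exact h8
    have h9 : (a₁ : ℝ) * b₂ / 2 * |(D' : ℝ)| ≤ ((a₁ : ℝ) * b₂ - a₂ * b₁) * |(D' : ℝ)| :=
      mul_le_mul_of_nonneg_right (by linarith) (abs_nonneg _)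
    linarith
  rw [le_div_iff₀ (by linarith : (0 : ℝ) < a₁)]
  calc |(D' : ℝ)| * |(b₂ : ℝ) * (a₁ * α + b₁ * β - n₁) - b₁ * (a₂ * α + b₂ * β - n₂)| * a₁
      ≤ |(D' : ℝ)| * (2 * ρ * b₁ * b₂) * a₁ := by
        apply mul_le_mul_of_nonneg_right _ (by linarith)
        exact mul_le_mul_of_nonneg_left h3 (abs_nonneg _)
    _ = (2 * ρ * b₁) * (|(D' : ℝ)| * (a₁ * b₂)) := by ring
    _ ≤ (2 * ρ * b₁) * (2 * M) := by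
        apply mul_le_mul_of_nonneg_left h4
        positivity
    _ = 4 * M * ρ * b₁ := by ring

end Pool.Agent.OV
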