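import Pool.Agent.helper38.OV.Spec
import Pool.Agent.helper93.OM.CUT

/-! # Row ov:CUG (MP_bf63dc_nt): the cut norm, sum over the pairs of S -/

set_option autoImplicit false

namespace Pool.Agent.OV

open Finset Real Pool.Agent.AT Pool.Agent.helper85.FC Pool.Agent.OM

/-- the sum over the pairs with `p'.1 < p.1` -/
theorem CUG_conv (L R Y : ℕ) (F : ℕ → ℤ → ℤ → ℝ) (φ ψ : ℕ × ℕ → ℝ) :
    ∑ p ∈ VV L Y, ∑ p' ∈ VV L Y, (if p'.1 < p.1 then F (p.1 - p'.1) p.2 p'.2 else 0) * φ p * ψ p' =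
    ∑ m ∈ Ico 1 L, ∑ x ∈ XX R Y, ∑ y ∈ XX R Y, F m x y * gm L (CUT_ext Y φ) (CUT_ext Y ψ) m x y := by
  have e1 : ∀ m ∈ Ico 1 L, ∑ x ∈ XX R Y, ∑ y ∈ XX R Y, F m x y *
      gm L (CUT_ext Y φ) (CUT_ext Y ψ) m x y = ∑ i ∈ Ico m L, ∑ x ∈ range Y, ∑ y ∈ range Y,
      F (i - (i - m)) x y * φ (i, x) * ψ (i - m, y) := by
    intro m _
    have f1 : ∑ x ∈ XX R Y, ∑ y ∈ XX R Y, F m x y *
        gm L (CUT_ext Y φ) (CUT_ext Y ψ) m x y = ∑ x ∈ range Y, ∑ y ∈ range Y,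
        F m x y * gm L (CUT_ext Y φ) (CUT_ext Y ψ) m x y := by
      rw [CUT_sum]
      · apply Finset.sum_congr rfl
        intro x _
        rw [CUT_sum]
        intro y hy
        unfold gm
        rw [Finset.sum_eq_zero, mul_zero]
        intro i _
        rw [CUT_ext_zero Y ψ (i - m) y hy, mul_zero]
      · intro x hx
        apply Finset.sum_eq_zero
        intro y _
        unfold gm
        rw [Finset.sum_eq_zero, mul_zero]
        intro i _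
        rw [CUT_ext_zero Y φ i x hx, zero_mul]
    rw [f1]
    have f2 : ∀ x ∈ range Y, ∑ y ∈ range Y, F m x y *
        gm L (CUT_ext Y φ) (CUT_ext Y ψ) m x y = ∑ i ∈ Ico m L, ∑ y ∈ range Y,
        F (i - (i - m)) x y * φ (i, x) * ψ (i - m, y) := by
      intro x hx
      rw [Finset.sum_comm]
      apply Finset.sum_congr rfl
      intro y hy
      unfold gm
      rw [Finset.mul_sum]
      apply Finset.sum_congr rfl
      intro i hi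
      rw [Finset.mem_range] at hx hy
      rw [Finset.mem_Ico] at hi
      rw [CUT_ext_nat Y φ i x hx, CUT_ext_nat Y ψ (i - m) y hy, Nat.sub_sub_self hi.1, mul_assoc]
    rw [Finset.sum_congr rfl f2, Finset.sum_comm]
  rw [Finset.sum_congr rfl e1]
  rw [CUT_pairs L (fun i j => ∑ x ∈ range Y, ∑ y ∈ range Y, F (i - j) x y * φ (i, x) * ψ (j, y))]
  unfold VV
  rw [Finset.sum_product]
  apply Finset.sum_congr rfl
  intro i hi
  rw [Finset.mem_range] at hi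
  have f3 : ∀ x ∈ range Y, ∑ p' ∈ range L ×ˢ range Y, (if p'.1 < i then F (i - p'.1) x p'.2 else 0) * φ (i, x) * ψ p' =
      ∑ j ∈ range i, ∑ y ∈ range Y, F (i - j) x y * φ (i, x) * ψ (j, y) := by
    intro x _
    rw [Finset.sum_product]
    have f4 : range i = (range L).filter (fun j => j < i) := by
      ext j
      rw [Finset.mem_filter, Finset.mem_range, Finset.mem_range]
      omega
    rw [f4, Finset.sum_filter]
    apply Finset.sum_congr rfl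
    intro j _
    split_ifs with h
    · rfl
    · apply Finset.sum_eq_zero
      intro y _
      rw [zero_mul, zero_mul]
  rw [Finset.sum_congr rfl f3, Finset.sum_comm]

theorem CUG_split (S : Finset ℕ) (L Y : ℕ) (h : (ℕ × ℕ) × ℕ → (ℕ × ℕ) × ℕ → ℝ) :
    ∑ p ∈ VG S L Y, ∑ p' ∈ VG S L Y, h p p' = ∑ s ∈ S, ∑ s' ∈ S, ∑ q ∈ VV L Y, ∑ q' ∈ VV L Y,
      h ((s, q.1), q.2) ((s', q'.1), q'.2) := by
  have e : ∀ g : (ℕ × ℕ) × ℕ → ℝ, ∑ p ∈ VG S L Y, g p = ∑ s ∈ S, ∑ q ∈ VV L Y, g ((s, q.1), q.2) := by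
    intro g
    unfold VG VV
    rw [Finset.sum_product, Finset.sum_product]
    apply Finset.sum_congr rfl
    intro s _
    rw [Finset.sum_product]
  rw [e]
  apply Finset.sum_congr rfl
  intro s _
  rw [Finset.sum_congr rfl fun q _ => e (fun p' => h ((s, q.1), q.2) p')]
  rw [Finset.sum_comm]

/-- half of the kernel -/
noncomputable def CUG_hf (a b M : ℕ) (T : ℕ → ℕ → ℕ → ℕ) (w : ℕ → ℕ → ℕ → ℤ → ℝ) (p p' : (ℕ × ℕ) × ℕ) : ℝ :=
  if p'.1.2 < p.1.2 then w p.1.1 p'.1.1 (p.1.2 - p'.1.2)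
    ((nb a b p.1.1 p'.1.1 (p.1.2 - p'.1.2) : ℤ) * p.2 - (na a b p.1.1 p'.1.1 (p.1.2 - p'.1.2) : ℤ) * p'.2) -
    PG M T w p.1.1 p'.1.1 (p.1.2 - p'.1.2)
    ((nb a b p.1.1 p'.1.1 (p.1.2 - p'.1.2) : ℤ) * p.2 - (na a b p.1.1 p'.1.1 (p.1.2 - p'.1.2) : ℤ) * p'.2) else 0

theorem CUG_half (hCU3 : CU3_stmt) (a b L M1 M Y : ℕ) (κ : ℝ) (S : Finset ℕ) (T : ℕ → ℕ → ℕ → ℕ) (hM : 1 ≤ M)
    (h : ∀ s ∈ S, ∀ s' ∈ S, Sq L κ (na a b s s') (nb a b s s') M1 ∧ ∀ m ∈ Ico 1 L, nb a b s s' m * M1 ∣ M ∧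
      M1 * nb a b s s' m ≤ Y ∧ 1 ≤ T s s' m ∧ κ * ((M : ℝ) * T s s' m) ≤ (na a b s s' m : ℝ) * Y)
    (w : ℕ → ℕ → ℕ → ℤ → ℝ) (hw : ∀ s s' m v, 0 ≤ w s s' m v ∧ w s s' m v ≤ 1)
    (φ ψ : (ℕ × ℕ) × ℕ → ℝ) (hφ : ∀ p, |φ p| ≤ 1) (hψ : ∀ p, |ψ p| ≤ 1) :
    |∑ p ∈ VG S L Y, ∑ p' ∈ VG S L Y, CUG_hf a b M T w p p' * φ p * ψ p'| ≤
      (κ + 21 / √(L : ℝ)) * ((#S : ℝ) * (L * Y)) ^ 2 := by
  rw [CUG_split S L Y (fun p p' => CUG_hf a b M T w p p' * φ p * ψ p')]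
  have key : ∀ s ∈ S, ∀ s' ∈ S, |∑ q ∈ VV L Y, ∑ q' ∈ VV L Y, CUG_hf a b M T w ((s, q.1), q.2) ((s', q'.1), q'.2) *
      φ ((s, q.1), q.2) * ψ ((s', q'.1), q'.2)| ≤ (κ + 21 / √(L : ℝ)) * ((L : ℝ) * Y) ^ 2 := by
    intro s hs s' hs'
    obtain ⟨hSq, hT⟩ := h s hs s' hs'
    have e1 := CUG_conv L (3 * Y) Y (fun m x y => w s s' m ((nb a b s s' m : ℤ) * x - (na a b s s' m : ℤ) * y) -
      sm M (T s s' m) (w s s' m) ((nb a b s s' m : ℤ) * x - (na a b s s' m : ℤ) * y))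
      (fun q => φ ((s, q.1), q.2)) (fun q => ψ ((s', q.1), q.2))
    have e2 : ∑ q ∈ VV L Y, ∑ q' ∈ VV L Y, CUG_hf a b M T w ((s, q.1), q.2) ((s', q'.1), q'.2) *
      φ ((s, q.1), q.2) * ψ ((s', q'.1), q'.2) = _ := e1
    rw [e2]
    exact hCU3 L Y M1 M κ (na a b s s') (nb a b s s') (T s s') hSq hM hT (w s s') _ _ (hw s s')
      (CUT_ext_le Y _ fun p => hφ _) (CUT_ext_le Y _ fun p => hψ _) (CUT_ext_sp Y _) (CUT_ext_sp Y _)
  refine (Finset.abs_sum_le_sum_abs _ _).trans ?_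
  have h2 : ∀ s ∈ S, |∑ s' ∈ S, ∑ q ∈ VV L Y, ∑ q' ∈ VV L Y, CUG_hf a b M T w ((s, q.1), q.2) ((s', q'.1), q'.2) *
      φ ((s, q.1), q.2) * ψ ((s', q'.1), q'.2)| ≤ #S * ((κ + 21 / √(L : ℝ)) * ((L : ℝ) * Y) ^ 2) := by
    intro s hs
    refine (Finset.abs_sum_le_sum_abs _ _).trans ?_
    refine (Finset.sum_le_sum fun s' hs' => key s hs s' hs').trans ?_
    rw [Finset.sum_const, nsmul_eq_mul]
  refine (Finset.sum_le_sum h2).trans ?_
  rw [Finset.sum_const, nsmul_eq_mul]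
  apply le_of_eq
  ring

theorem CUG (hCU3 : CU3_stmt) : CUG_stmt := by
  intro a b L M1 M Y κ S T hM h w hw φ ψ hφ hψ
  have g1 := CUG_half hCU3 a b L M1 M Y κ S T hM h w hw φ ψ hφ hψ
  have g2 := CUG_half hCU3 a b L M1 M Y κ S T hM h w hw ψ φ hψ hφ
  have e1 : ∑ p ∈ VG S L Y, ∑ p' ∈ VG S L Y, (kg a b w p p' - kg a b (PG M T w) p p') * φ p * ψ p' =
      ∑ p ∈ VG S L Y, ∑ p' ∈ VG S L Y, CUG_hf a b M T w p p' * φ p * ψ p' +
      ∑ p ∈ VG S L Y, ∑ p' ∈ VG S L Y, CUG_hf a b M T w p p' * ψ p * φ p' := by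
    rw [Finset.sum_comm (s := VG S L Y) (t := VG S L Y) (f := fun p p' => CUG_hf a b M T w p p' * ψ p * φ p'),
      ← Finset.sum_add_distrib]
    apply Finset.sum_congr rfl
    intro p _
    rw [← Finset.sum_add_distrib]
    apply Finset.sum_congr rfl
    intro p' _
    unfold kg CUG_hf
    rcases lt_trichotomy p.1.2 p'.1.2 with h | h | h
    · rw [if_neg (by omega), if_pos h, if_neg (by omega), if_pos h, if_neg (by omega), if_pos h]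
      ring
    · rw [if_neg (by omega), if_neg (by omega), if_neg (by omega), if_neg (by omega), if_neg (by omega), if_neg (by omega)]
      ring
    · rw [if_pos h, if_pos h, if_pos h, if_neg (by omega)]
      ring
  have e3 : (2 * κ + 42 / √(L : ℝ)) * ((#S : ℝ) * (L * Y)) ^ 2 =
      (κ + 21 / √(L : ℝ)) * ((#S : ℝ) * (L * Y)) ^ 2 + (κ + 21 / √(L : ℝ)) * ((#S : ℝ) * (L * Y)) ^ 2 := by
    ring
  rw [e1, e3]
  exact (abs_add_le _ _).trans (add_le_add g1 g2)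

end Pool.Agent.OV
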